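import Pool.Agent.Helper31.BQ.Stmts2

/-!
# Affine Baire-one maps, row SD: a normed space with separable dual is separable
-/

set_option autoImplicit false

namespace Pool.Agent.Helper34.BQ

open Filter Topology Pool.Agent.Helper31.BQ

universe u

/-- SD -/
theorem st_SD : ST_SD.{u} := by
  intro 𝕜 _ D _ _ hsep
  classical
  obtain ⟨x, hx⟩ := TopologicalSpace.exists_dense_seq (StrongDual 𝕜 D)
  have hd : ∀ k, ∃ d : D, ‖d‖ ≤ 1 ∧ ‖x k‖ / 2 ≤ ‖x k d‖ := by
    intro k
    rcases (norm_nonneg (x k)).eq_or_lt with h0 | hpos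
    · exact ⟨0, by simp, by rw [← h0]; simp⟩
    · obtain ⟨d, h1, h2⟩ := ContinuousLinearMap.exists_lt_apply_of_lt_opNorm (x k)
        (show ‖x k‖ / 2 < ‖x k‖ by linarith)
      exact ⟨d, h1.le, h2.le⟩
  choose d hd1 hd2 using hd
  set S : Submodule 𝕜 D := Submodule.span 𝕜 (Set.range d) with hS
  have hSsep : TopologicalSpace.IsSeparable (S : Set D) :=
    (Set.countable_range d).isSeparable.span
  have htop : closure (S : Set D) = Set.univ := by
    by_contra hne
    obtain ⟨v, hv⟩ := (Set.ne_univ_iff_exists_notMem _).mp hne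
    have hcl : IsClosed ((S.topologicalClosure : Submodule 𝕜 D) : Set D) :=
      S.isClosed_topologicalClosure
    have hvq : (S.topologicalClosure.mkQ v) ≠ 0 := by
      intro h
      rw [Submodule.mkQ_apply, Submodule.Quotient.mk_eq_zero] at h
      exact hv h
    obtain ⟨g, hg⟩ := SeparatingDual.exists_ne_zero (R := 𝕜) hvq
    set f : StrongDual 𝕜 D := g.comp (S.topologicalClosure.mkQL) with hf
    have hfv : f v ≠ 0 := by
      rw [hf]
      simpa using hg
    have hf0 : ∀ k, f (d k) = 0 := by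
      intro k
      have h1 : d k ∈ S.topologicalClosure :=
        S.le_topologicalClosure (Submodule.subset_span ⟨k, rfl⟩)
      have h2 : S.topologicalClosure.mkQ (d k) = 0 := by
        rw [Submodule.mkQ_apply, Submodule.Quotient.mk_eq_zero]
        exact h1
      rw [hf]
      show g (S.topologicalClosure.mkQ (d k)) = 0
      rw [h2, map_zero]
    have hfn : 0 < ‖f‖ := by
      rw [norm_pos_iff]
      rintro h
      apply hfv
      rw [h]
      rfl
    obtain ⟨k, hk⟩ := Metric.denseRange_iff.mp hx f (‖f‖ / 4) (by positivity)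
    rw [dist_eq_norm] at hk
    have h3 : ‖x k (d k)‖ ≤ ‖f‖ / 4 := by
      have h4 : x k (d k) = -((f - x k) (d k)) := by
        rw [sub_apply, hf0 k]
        ring
      rw [h4, norm_neg]
      calc ‖(f - x k) (d k)‖ ≤ ‖f - x k‖ * ‖d k‖ := ContinuousLinearMap.le_opNorm _ _
        _ ≤ ‖f - x k‖ * 1 := by gcongr; exact hd1 k
        _ ≤ ‖f‖ / 4 := by linarith
    have h5 : ‖f‖ ≤ ‖f - x k‖ + ‖x k‖ := by
      calc ‖f‖ = ‖(f - x k) + x k‖ := by rw [sub_add_cancel]
        _ ≤ _ := norm_add_le _ _
    have h6 := hd2 k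
    linarith
  have h7 : TopologicalSpace.IsSeparable (Set.univ : Set D) := by
    rw [← htop]
    exact hSsep.closure
  exact TopologicalSpace.isSeparable_univ_iff.mp h7

end Pool.Agent.Helper34.BQ
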